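import Pool.Agent.W488.IX.Stm
import Pool.Agent.W374.IW.HaHb

/-! Project IX: derivative forms of functions of the regularised moduli. -/

set_option autoImplicit false

namespace Pool.Agent.W588.IX.Omg

open MeasureTheory Set Filter Topology
open Pool.Agent.W488.IW Pool.Agent.W488.IX
open Pool.Agent.W374.IW.HaHb (XX_pos LL LL_apply hX hY)

lemma hPsi {Ψ : ℝ → ℝ → ℝ} {ε : ℝ} {a b : ℂ} {gx gy : ℝ} (hε : 0 < ε)
    (h : HasFDerivAt (fun z : ℝ × ℝ => Ψ z.1 z.2) (lin gx gy) (XX ε a, XX ε b)) :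
    HasFDerivAt (fun F : ℂ × ℂ => Ψ (XX ε F.1) (XX ε F.2))
      ((lin gx gy).comp (((LL ε a).comp (ContinuousLinearMap.fst ℝ ℂ ℂ)).prod
        ((LL ε b).comp (ContinuousLinearMap.snd ℝ ℂ ℂ)))) (a, b) :=
  HasFDerivAt.comp (a, b) (f := fun F : ℂ × ℂ => (XX ε F.1, XX ε F.2)) h
    ((hX hε (a, b)).prodMk (hY hε (a, b)))

lemma hE {Ψ : ℝ → ℝ → ℝ} {ε : ℝ} (ϑ : ℝ) {a b : ℂ} {gx gy : ℝ} (hε : 0 < ε)
    (h : HasFDerivAt (fun z : ℝ × ℝ => Ψ z.1 z.2) (lin gx gy) (XX ε a, XX ε b)) :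
    DifferentiableAt ℝ (fun F : ℂ × ℂ => Ψ (XX ε F.1) (XX ε F.2) / XX ε F.1 ^ 2 + ϑ) (a, b) ∧
    ∀ U : ℂ × ℂ, fderiv ℝ (fun F : ℂ × ℂ => Ψ (XX ε F.1) (XX ε F.2) / XX ε F.1 ^ 2 + ϑ) (a, b) U =
      (gx / XX ε a ^ 2 - 2 * Ψ (XX ε a) (XX ε b) / XX ε a ^ 3) * LL ε a U.1
      + gy / XX ε a ^ 2 * LL ε b U.2 := by
  have hx := hX hε (a, b)
  have hp := XX_pos hε a
  have h3 := ((hasDerivAt_inv (pow_ne_zero 2 hp.ne')).comp_hasFDerivAt (a, b) (hx.pow 2))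
  have h4 := ((hPsi hε h).mul h3).add_const ϑ
  have h5 : HasFDerivAt (fun F : ℂ × ℂ => Ψ (XX ε F.1) (XX ε F.2) / XX ε F.1 ^ 2 + ϑ) _ (a, b) := h4
  refine ⟨h5.differentiableAt, fun U => ?_⟩
  rw [h5.fderiv]
  simp only [add_apply, sub_apply, smul_apply, ContinuousLinearMap.comp_apply, smul_eq_mul,
    ContinuousLinearMap.coe_fst', ContinuousLinearMap.coe_snd', Function.comp_apply, lin,
    nsmul_eq_mul, ContinuousLinearMap.prod_apply]
  field_simp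
  push_cast
  ring

lemma hG {Ψ : ℝ → ℝ → ℝ} {ε : ℝ} (ϑ : ℝ) {a b : ℂ} {gx gy : ℝ} (hε : 0 < ε)
    (h : HasFDerivAt (fun z : ℝ × ℝ => Ψ z.1 z.2) (lin gx gy) (XX ε a, XX ε b)) :
    DifferentiableAt ℝ (fun F : ℂ × ℂ => Ψ (XX ε F.1) (XX ε F.2) / XX ε F.2 ^ 2 - ϑ) (a, b) ∧
    ∀ U : ℂ × ℂ, fderiv ℝ (fun F : ℂ × ℂ => Ψ (XX ε F.1) (XX ε F.2) / XX ε F.2 ^ 2 - ϑ) (a, b) U =
      gx / XX ε b ^ 2 * LL ε a U.1
      + (gy / XX ε b ^ 2 - 2 * Ψ (XX ε a) (XX ε b) / XX ε b ^ 3) * LL ε b U.2 := by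
  have hy := hY hε (a, b)
  have hp := XX_pos hε b
  have h3 := ((hasDerivAt_inv (pow_ne_zero 2 hp.ne')).comp_hasFDerivAt (a, b) (hy.pow 2))
  have h4 := ((hPsi hε h).mul h3).sub_const ϑ
  have h5 : HasFDerivAt (fun F : ℂ × ℂ => Ψ (XX ε F.1) (XX ε F.2) / XX ε F.2 ^ 2 - ϑ) _ (a, b) := h4
  refine ⟨h5.differentiableAt, fun U => ?_⟩
  rw [h5.fderiv]
  simp only [add_apply, sub_apply, smul_apply, ContinuousLinearMap.comp_apply, smul_eq_mul,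
    ContinuousLinearMap.coe_fst', ContinuousLinearMap.coe_snd', Function.comp_apply, lin,
    nsmul_eq_mul, ContinuousLinearMap.prod_apply]
  field_simp
  push_cast
  ring

/-- IX-OMG -/
theorem main : S_OMG := by
  intro Ψ ε ϑ a b gx gy hε h
  obtain ⟨hE1, hE2⟩ := hE ϑ hε h
  obtain ⟨hG1, hG2⟩ := hG ϑ hε h
  have hx := XX_pos hε a
  have hy := XX_pos hε b
  refine ⟨⟨hE1, fun p q r => ?_⟩, ⟨hG1, fun p q r => ?_⟩⟩
  · unfold OMa
    rw [hE2, hE2]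
    simp only [LL_apply]
    unfold OAG
    simp only [Complex.sq_norm, Complex.normSq_apply, Complex.mul_re, Complex.mul_im,
      Complex.add_re, Complex.add_im, Complex.sub_re, Complex.sub_im, Complex.conj_re,
      Complex.conj_im, Complex.I_re, Complex.I_im]
    set X := XX ε a
    set Y := XX ε b
    set E := Ψ X Y
    field_simp
    ring
  · unfold OMb
    rw [hG2, hG2]
    simp only [LL_apply]
    unfold OBG
    simp only [Complex.sq_norm, Complex.normSq_apply, Complex.mul_re, Complex.mul_im,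
      Complex.add_re, Complex.add_im, Complex.sub_re, Complex.sub_im, Complex.conj_re,
      Complex.conj_im, Complex.I_re, Complex.I_im]
    set X := XX ε a
    set Y := XX ε b
    set G := Ψ X Y
    field_simp
    ring

end Pool.Agent.W588.IX.Omg
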